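import Pool.Agent.N948.XE.Fin

/-!
# Local cut points of the scaling limits of the outer perimeter of the largest critical cluster

Critical bond percolation on `ℤ²` in the box `Λ_n = {0, …, n}²`.  `Plain.edges n` is the set of the
edges of `Λ_n` and `Plain.Largest n F v` says that the cluster of `v` has the largest Euclidean
diameter among the clusters of the configuration `F` (a set of open edges of the box).
`IsTrace n F v c` says that `c` is the closed lattice path tracing the boundary of the unbounded
component of the complement of the cluster of `v`, scaled by `1 / n`.  `Curve` is the space of
curves, with the distance modulo increasing reparametrisation, `c.path : C(unitInterval, ℂ)` is a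
parametrisation of `c`, and `lawOf n f` is the law of `f F` when all sets `F` of open edges of the
box are equally likely.  These definitions are those of the starting file
`Pool/Agent/Results/MP_6bd702_pr/LimitCurves.lean` (see there), which shows that weak limits exist.

A local cut point is a point through which the curve runs, and which it does not only touch, such
that a piece of the curve before it and a piece of the curve after it have no other point in
common. Such a point comes from five disjoint arms around a mesoscopic ball.

Parts proved by helper8, helper221, helper301, helper349, helper359, helper439, helper454,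
helper491, helper521, helper562, helper568, helper581, helper648, helper667, helper692, helper768,
helper820, helper999, on the base of the library of `Pool/Agent/Results/MP_fe58d8_pr/
LocalCutPoints.lean` and of the starting files.
-/

set_option autoImplicit false

namespace Pool.Agent.Results.MP_6bd702_pr.LocalCutPoints

open H342L H342T H342P.Plain MeasureTheory Filter Topology

/-- The local cut points of the curve `c`: the points `z = c.path t` such that for some
`s < t < u` with `c.path s ≠ z` and `c.path u ≠ z` the two pieces of the curve between the times
`s` and `t` and between the times `t` and `u` have no other point than `z` in common. -/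
def localCutPoints (c : Curve) : Set ℂ :=
  {z | ∃ s t u : unitInterval, s < t ∧ t < u ∧ c.path t = z ∧ c.path s ≠ z ∧ c.path u ≠ z ∧
    c.path '' Set.Icc s t ∩ c.path '' Set.Icc t u ⊆ {z}}

/-- The open unit square. -/
def openSquare : Set ℂ := {z | 0 < z.re ∧ z.re < 1 ∧ 0 < z.im ∧ z.im < 1}

/-- Let `C_n` be a cluster of largest Euclidean diameter (`sel` chooses one of them, by any rule) and
`γ_n` the closed lattice path tracing its outer boundary, divided by `n`.  If the law of `γ_n`
converges along some sequence of scales, then, almost surely with respect to the limit, the set of
the local cut points of the curve has Hausdorff dimension exactly `3/4`; those in the open unit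
square already have this dimension, and those on the boundary of the square have dimension at most
`2/3`.  Moreover, for every fixed set `T`, almost surely the local cut points in `T` and in the open
square have dimension at most `dimH T - 5/4`, and there are none if `T` has `5/4`-dimensional
Hausdorff measure zero. -/
theorem result (sel : (n : ℕ) → Finset Edge → ℤ × ℤ)
    (hsel : ∀ n F, 0 < n → F ⊆ edges n → Largest n F (sel n F))
    (γ : (n : ℕ) → Finset Edge → Curve)
    (hγ : ∀ n F, 0 < n → F ⊆ edges n → IsTrace n F (sel n F) (γ n F))
    (k : ℕ → ℕ) (hk : Tendsto k atTop atTop) (μ : ProbabilityMeasure Curve)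
    (hμ : Tendsto (fun i => lawOf (k i) (γ (k i))) atTop (𝓝 μ)) :
    (∀ᵐ c : Curve ∂(μ : Measure Curve), dimH (localCutPoints c) = 3 / 4 ∧
      dimH (localCutPoints c ∩ openSquare) = 3 / 4 ∧
      dimH (localCutPoints c \ openSquare) ≤ 2 / 3) ∧
    ∀ T : Set ℂ, ∀ᵐ c : Curve ∂(μ : Measure Curve),
      dimH (localCutPoints c ∩ T ∩ openSquare) ≤ dimH T - ENNReal.ofReal (5 / 4) ∧
      (μH[5 / 4] T = 0 → localCutPoints c ∩ T ∩ openSquare = ∅) :=
  ⟨Pool.Agent.N948.XE.fin ⟨hsel, hγ⟩ hk hμ,
    fun T => Pool.Agent.N948.XE.hul6 sel γ ⟨hsel, hγ⟩ k hk μ hμ T⟩

end Pool.Agent.Results.MP_6bd702_pr.LocalCutPoints
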