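import Pool.Agent.N956.PL.Top

/-!
# The law of the iterated logarithm for the perimeter of the largest critical cluster

Critical bond percolation on the whole lattice `ℤ²`: all edges are open or closed with probability
`1/2`, independently (`crit`). `openIn n ω` is the set of the open edges of the box
`Λ_n = {0, …, n}²`, so that all boxes are considered for the same configuration `ω`.
`Largest n F v` says that the cluster of `v` has the largest Euclidean diameter among the clusters of
`Λ_n`, `perimeter F v` is the number of steps of the closed lattice path which traces the boundary of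
the unbounded component of the complement of this cluster, and `perimeterEdges F v` is the number of
different edges on it (`Pool/Agent/H342R2/Per/Plain.lean`).

The result: there is a nonrandom constant `L`, `0 < L < ∞`, such that almost surely
`limsup_n perimeter / (n ^ (7/4) (log log n) ^ (1/8)) = L`.

The upper bound needs a maximal inequality: outside an event of probability `C exp (- c K ^ 2)` the
perimeters of the largest clusters of *all* boxes `Λ_n`, `N ≤ n ≤ 2 N`, are at most
`B K ^ (1/4) N ^ (7/4)` (`Pool.Agent.N956.PL.max_ineq`). The lower bound needs almost independent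
scales (`Pool.Agent.N956.PL.low`), and the constant needs a zero-one law
(`Pool.Agent.N956.PL.zero_one`).
-/

set_option autoImplicit false

namespace Pool.Agent.Results.MP_6bd702_pr.PerimeterIteratedLogarithm

open H342P.Plain MeasureTheory ProbabilityTheory Filter Topology

/-- Critical bond percolation on `ℤ²`: `true` (open) and `false` (closed) with probability `1/2`,
independently for all edges. -/
noncomputable def crit : Measure (Edge → Bool) :=
  Measure.infinitePi (fun _ => bernoulliMeasure true false ⟨1/2, by norm_num, by norm_num⟩)

/-- The open edges of the box `Λ_n`. -/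
noncomputable def openIn (n : ℕ) (ω : Edge → Bool) : Finset Edge :=
  (edges n).filter (fun e => ω e = true)

open Classical in
/-- The perimeter of the cluster of largest diameter of `Λ_n` (the maximum, if several clusters have
the largest diameter). -/
noncomputable def longest (n : ℕ) (F : Finset Edge) : ℕ :=
  (box n).sup (fun v => if Largest n F v then perimeter F v else 0)

open Classical in
/-- The number of different edges on the perimeter of the cluster of largest diameter of `Λ_n` (the
maximum, if several clusters have the largest diameter). -/
noncomputable def longestEdges (n : ℕ) (F : Finset Edge) : ℕ :=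
  (box n).sup (fun v => if Largest n F v then perimeterEdges F v else 0)

/-- `n ^ (7/4) (log log n) ^ (1/8)` -/
noncomputable def rate (n : ℕ) : ℝ := (n : ℝ) ^ (7/4 : ℝ) * (Real.log (Real.log n)) ^ (1/8 : ℝ)

theorem result : ∃ c C L L' : ℝ, 0 < c ∧ c ≤ L ∧ L ≤ C ∧ c ≤ L' ∧ L' ≤ C ∧
    ∀ᵐ ω ∂crit,
      limsup (fun n : ℕ => (longest n (openIn n ω) : ℝ) / rate n) atTop = L ∧
      limsup (fun n : ℕ => (longestEdges n (openIn n ω) : ℝ) / rate n) atTop = L' ∧
      (∀ᶠ n : ℕ in atTop, ∀ v, Largest n (openIn n ω) v →
        (perimeter (openIn n ω) v : ℝ) ≤ C * rate n) ∧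
      ∃ᶠ n : ℕ in atTop, ∀ v, Largest n (openIn n ω) v →
        c * rate n ≤ (perimeterEdges (openIn n ω) v : ℝ) := by
  obtain ⟨c, C, L, L', h0, h1, h2, h3, h4, h⟩ := Pool.Agent.N956.PL.top
  refine ⟨c, C, L, L', h0, h1, h2, h3, h4, ?_⟩
  have e : ∀ (n : ℕ) (ω : Edge → Bool), openIn n ω = Pool.Agent.N956.PL.op (H974.RE 0 n 0 n) ω := by
    intro n ω
    unfold openIn Pool.Agent.N956.PL.op
    rw [edges_eq]
  simp_rw [e]
  exact h

end Pool.Agent.Results.MP_6bd702_pr.PerimeterIteratedLogarithm
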