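import Pool.Agent.N892.MA.Cv
import Pool.Agent.Results.MP_6bd702_pr.DoublePoints

/-!
# Limits of the perimeter of the largest critical cluster: all smooth functions, all smooth copies

Critical bond percolation on `ℤ²` in the box `Λ_n = {0, …, n}²`.  `Plain.edges n` is the set of the
edges of `Λ_n` and `Plain.Largest n F v` says that the cluster of `v` has the largest Euclidean
diameter among the clusters of the configuration `F` (a set of open edges of the box).
`IsTrace n F v c` says that `c` is the closed lattice path tracing the boundary of the unbounded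
component of the complement of the cluster of `v`, scaled by `1 / n`.  `Curve` is the space of
curves, with the distance modulo increasing reparametrisation, `c.path : C(unitInterval, ℂ)` is a
parametrisation of `c`, and `lawOf n f` is the law of `f F` when all sets `F` of open edges of the
box are equally likely.  These definitions are those of the starting file
`Pool/Agent/Results/MP_6bd702_pr/LimitCurves.lean` (see there), which shows that weak limits exist;
`doublePoints` and `openSquare` are in `DoublePoints`. `boundaries c` is the union of the outer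
boundary of `c` and of the boundaries of all the components of the complement of its trace.

For every weak limit `c` of the law of the perimeter of a largest cluster:
* almost surely, simultaneously for ALL real functions `g` of class `C^(1,α)` without critical
  points (on any set `U`, for any `α > 0`, which may depend on the point) and ALL sets `E`: if `E`
  is a set of double points in `U` and in the open unit square, then `g(E)` and `E` have the same
  Hausdorff and the same packing dimension; if `E` is a subset of `boundaries c` in `U` and in the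
  open unit square, then `dim g(E) ≤ dim E ≤ dim g(E) + 1/3`, for the Hausdorff and for the packing
  dimension. If `U` contains the open square, then the image of the set of all the double points in
  the open square has dimension `3/4` for all these `g`.
* almost surely, ALL curves of class `C^(1,α)` with non-vanishing derivative meet, in the open
  square, the double points in dimension zero and `boundaries c` in dimension at most `1/3`.
* for every set `S` which is regular with exponent `a` (`Reg`: quasi-Assouad dimension at most `a`,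
  uniformly in space), almost surely, simultaneously for ALL maps `φ` of the plane of class
  `C^(1,α)` with invertible derivative: the Hausdorff and packing dimensions of the intersections
  of `φ(S)`, in the open square, with the double points are at most `max (a - 5/4) 0`, and with
  `boundaries c` at most `max (a - 2/3) 0`.
* for two independent limits `c`, `c'` (along two sequences of scales), almost surely, for ALL such
  maps `φ`, inside the open squares: the double points of `c` and the images of the double points of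
  `c'` have an intersection of dimension zero, `boundaries c` and `φ(boundaries c')` one of
  dimension at most `2/3`, and the double points of `c` and `φ(boundaries c')`, as well as
  `boundaries c` and the images of the double points of `c'`, one of dimension at most `1/12`.

Used from the library: the sharp three-arm and four-arm bounds, and the deterministic parts of the
theorems on the dimensions of the double points and of the outer boundary.
-/

set_option autoImplicit false

namespace Pool.Agent.Results.MP_6bd702_pr.PerimeterSmoothMaps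

open H342L H342T H342P.Plain MeasureTheory Filter Topology Set
open Pool.Agent.W822.PD (DPc Sq Tr)
open Pool.Agent.TH990.FU (Acc)
open Pool.Agent.N892.MA
open Pool.Agent.N892.AC (Reg)
open Pool.Agent.N892.UP (packDim)
open DoublePoints (doublePoints openSquare)
open scoped ENNReal NNReal

/-- The union of the outer boundary of `c` (the boundary of the set of the points whose component in
the complement of the trace is unbounded) and of the boundaries of all the components of the
complement of the trace. -/
def boundaries (c : Curve) : Set ℂ :=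
  frontier {z | z ∉ range c.path ∧ ¬ Bornology.IsBounded (connectedComponentIn (range c.path)ᶜ z)} ∪
  ⋃ x : ℂ, frontier (connectedComponentIn (range c.path)ᶜ x)

/-- All functions of class `C^(1,α)` without critical points decrease the Hausdorff and the packing
dimensions of all subsets of `P ∩ D` (in the domain `U` of the function) by at most `b`. -/
def Functions (P D : Set ℂ) (b : ℝ) : Prop :=
  ∀ (U : Set ℂ) (g : ℂ → ℝ), HolderC1 g U → (∀ x ∈ U, fderiv ℝ g x ≠ 0) →
    ∀ E ⊆ P ∩ D ∩ U,
      (dimH (g '' E) ≤ dimH E ∧ dimH E ≤ dimH (g '' E) + ENNReal.ofReal b) ∧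
      (packDim (g '' E) ≤ packDim E ∧ packDim E ≤ packDim (g '' E) + ENNReal.ofReal b)

/-- All curves of class `C^(1,α)` with non-vanishing derivative meet `P ∩ D` in a set of Hausdorff
and packing dimension at most `b`. -/
def Curves (P D : Set ℂ) (b : ℝ) : Prop :=
  ∀ (J : Set ℝ) (γ : ℝ → ℂ), HolderC1 γ J → (∀ t ∈ J, deriv γ t ≠ 0) →
    dimH (P ∩ D ∩ γ '' J) ≤ ENNReal.ofReal b ∧ packDim (P ∩ D ∩ γ '' J) ≤ ENNReal.ofReal b

/-- The Hausdorff and the packing dimensions of the intersections of `P ∩ D` with the images of `S`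
under all maps of class `C^(1,α)` with invertible derivative are at most `b`. -/
def Images (P D S : Set ℂ) (b : ℝ) : Prop :=
  ∀ (U : Set ℂ) (φ : ℂ → ℂ), HolderC1 φ U → (∀ x ∈ U, Function.Injective (fderiv ℝ φ x)) →
    dimH (P ∩ D ∩ φ '' (S ∩ U)) ≤ ENNReal.ofReal b ∧
    packDim (P ∩ D ∩ φ '' (S ∩ U)) ≤ ENNReal.ofReal b

theorem functions_of {P T D : Set ℂ} {b : ℝ} (h : FunBd T D b) (hP : P ⊆ T) :
    Functions P D b := by
  intro U g hg hreg E hE
  exact h U g hg hreg E fun z hz => ⟨⟨hP (hE hz).1.1, (hE hz).2⟩, (hE hz).1.2⟩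

theorem curves_of {P T D : Set ℂ} {b : ℝ} (h : CopBd T D (Pool.Agent.N892.AC.ln 1 0) b)
    (hP : P ⊆ T) : Curves P D b := crvBd_of (h.mono hP (Subset.refl _))

theorem images_of {P T D S : Set ℂ} {b : ℝ} (h : CopBd T D S b) (hP : P ⊆ T) : Images P D S b :=
  h.mono hP (Subset.refl _)

theorem dbl_sub (c : Curve) : doublePoints c ⊆ ⋃ n : ℕ, DPc (1 / ((n:ℝ) + 1)) c.path := by
  rintro z ⟨s, t, hst, h1, h2, ⟨u, hu, hu2⟩, v, hv, hv2⟩
  obtain ⟨n, hn⟩ := exists_nat_one_div_lt (lt_min (dist_pos.2 hu2) (dist_pos.2 hv2))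
  refine mem_iUnion.2 ⟨n, s, t, hst.le, h1, h2, ⟨u, ⟨hu.1.le, hu.2.le⟩,
    (hn.le.trans (min_le_left _ _))⟩, v, ?_, (hn.le.trans (min_le_right _ _))⟩
  rcases hv with hv | hv
  · exact Or.inl hv.le
  · exact Or.inr hv.le

theorem bd_sub {c : Curve} (hne : ∃ s t, c.path s ≠ c.path t) :
    boundaries c ⊆ ⋃ n : ℕ, Acc (1 / ((n:ℝ) + 1)) c.path :=
  union_subset (Pool.Agent.Y997.OB.oB_acc hne) (Pool.Agent.TH990.FU.frontiers_acc hne)

theorem dep_cover {D : Set ℂ} (hD : IsOpen D) : D ⊆ ⋃ k : ℕ, DepD D (1 / ((k:ℝ) + 1)) := by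
  intro z hz
  obtain ⟨ε, hε, h⟩ := Metric.isOpen_iff.1 hD z hz
  obtain ⟨k, hk⟩ := exists_nat_one_div_lt hε
  exact mem_iUnion.2 ⟨k, (Metric.closedBall_subset_ball hk).trans h⟩

theorem result (sel : (n : ℕ) → Finset Edge → ℤ × ℤ)
    (hsel : ∀ n F, 0 < n → F ⊆ edges n → Largest n F (sel n F))
    (γ : (n : ℕ) → Finset Edge → Curve)
    (hγ : ∀ n F, 0 < n → F ⊆ edges n → IsTrace n F (sel n F) (γ n F))
    (k : ℕ → ℕ) (hk : Tendsto k atTop atTop) (μ : ProbabilityMeasure Curve)
    (hμ : Tendsto (fun i => lawOf (k i) (γ (k i))) atTop (𝓝 μ)) :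
    (∀ᵐ c : Curve ∂(μ : Measure Curve),
      (Functions (doublePoints c) openSquare 0 ∧ Functions (boundaries c) openSquare (1/3)) ∧
      (Curves (doublePoints c) openSquare 0 ∧ Curves (boundaries c) openSquare (1/3)) ∧
      ∀ (U : Set ℂ) (g : ℂ → ℝ), HolderC1 g U → (∀ x ∈ U, fderiv ℝ g x ≠ 0) → openSquare ⊆ U →
        dimH (g '' (doublePoints c ∩ openSquare)) = 3 / 4) ∧
    (∀ (S : Set ℂ) (a : ℝ), 0 < a → a ≤ 2 → Reg S a → ∀ᵐ c : Curve ∂(μ : Measure Curve),
      Images (doublePoints c) openSquare S (max (a - 5/4) 0) ∧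
      Images (boundaries c) openSquare S (max (a - 2/3) 0)) ∧
    (∀ k' : ℕ → ℕ, Tendsto k' atTop atTop → ∀ μ' : ProbabilityMeasure Curve,
      Tendsto (fun i => lawOf (k' i) (γ (k' i))) atTop (𝓝 μ') →
      ∀ᵐ c' : Curve ∂(μ' : Measure Curve), ∀ᵐ c : Curve ∂(μ : Measure Curve),
        (Images (doublePoints c) openSquare (doublePoints c' ∩ openSquare) 0 ∧
          Images (doublePoints c) openSquare (boundaries c' ∩ openSquare) (1/12)) ∧
        (Images (boundaries c) openSquare (doublePoints c' ∩ openSquare) (1/12) ∧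
          Images (boundaries c) openSquare (boundaries c' ∩ openSquare) (2/3))) := by
  have hT : Tr sel γ := ⟨hsel, hγ⟩
  have hU := Pool.Agent.W424.KI.u3
  obtain ⟨a1, a2, a3⟩ := allC4 hT hk hμ
  obtain ⟨b1, b2, b3⟩ := allC3 hT hk hμ hU
  have hnc := Pool.Agent.Y997.OB.nonconst hT hk hμ
  have hcop : ∀ (S : Set ℂ) (a : ℝ), 0 < a → a ≤ 2 → Reg S a → ∀ᵐ c : Curve ∂(μ : Measure Curve),
      Images (doublePoints c) openSquare S (max (a - 5/4) 0) ∧
      Images (boundaries c) openSquare S (max (a - 2/3) 0) := by
    intro S a ha ha2 hS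
    filter_upwards [a2 S a ha ha2 hS, b2 S a ha ha2 hS, hnc] with c h4 h3 hne
    exact ⟨images_of h4 (dbl_sub c), images_of h3 (bd_sub hne)⟩
  refine ⟨?_, hcop, ?_⟩
  · have hx4 := a2 (Pool.Agent.N892.AC.ln 1 0) 1 one_pos (by norm_num) Pool.Agent.N892.AC.axis_reg
    have hx3 := b2 (Pool.Agent.N892.AC.ln 1 0) 1 one_pos (by norm_num) Pool.Agent.N892.AC.axis_reg
    have e4 : max ((1:ℝ) - 5/4) 0 = 0 := by norm_num
    have e3 : max ((1:ℝ) - 2/3) 0 = 1/3 := by norm_num
    rw [e4] at hx4
    rw [e3] at hx3
    filter_upwards [a1, b1, hx4, hx3, hnc, DoublePoints.result sel hsel γ hγ k hk μ hμ] with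
      c f4 f3 x4 x3 hne h34
    have hF := functions_of f4 (dbl_sub c)
    refine ⟨⟨hF, functions_of f3 (bd_sub hne)⟩, ⟨curves_of x4 (dbl_sub c),
      curves_of x3 (bd_sub hne)⟩, fun U g hg hreg hUs => ?_⟩
    obtain ⟨⟨h1, h2⟩, -⟩ := hF U g hg hreg (doublePoints c ∩ openSquare)
      fun z hz => ⟨hz, hUs hz.2⟩
    rw [ENNReal.ofReal_zero, add_zero] at h2
    rw [le_antisymm h1 h2]
    exact h34.2.1
  · intro k' hk' μ' hμ'
    obtain ⟨-, -, a3'⟩ := allC4 hT hk' hμ'
    obtain ⟨-, -, b3'⟩ := allC3 hT hk' hμ' hU
    filter_upwards [a3', b3', Pool.Agent.Y997.OB.nonconst hT hk' hμ'] with c' q4 q3 hne'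
    have e1 : max ((3:ℝ) / 4 - 5/4) 0 = 0 := by norm_num
    have e2 : max ((3:ℝ) / 4 - 2/3) 0 = 1/12 := by norm_num
    have e3 : max ((4:ℝ) / 3 - 5/4) 0 = 1/12 := by norm_num
    have e4 : max ((4:ℝ) / 3 - 2/3) 0 = 2/3 := by norm_num
    have c1 : ∀ᵐ c : Curve ∂(μ : Measure Curve), ∀ n m : ℕ,
        Images (doublePoints c) openSquare
          (DPc (1 / ((n:ℝ) + 1)) c'.path ∩ DepD Sq (1 / ((m:ℝ) + 1))) 0 ∧
        Images (boundaries c) openSquare
          (DPc (1 / ((n:ℝ) + 1)) c'.path ∩ DepD Sq (1 / ((m:ℝ) + 1))) (1/12) := by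
      rw [ae_all_iff]; intro n
      rw [ae_all_iff]; intro m
      have := hcop _ (3/4) (by norm_num) (by norm_num) (q4 n m)
      rwa [e1, e2] at this
    have c2 : ∀ᵐ c : Curve ∂(μ : Measure Curve), ∀ n m : ℕ,
        Images (doublePoints c) openSquare
          (Acc (1 / ((n:ℝ) + 1)) c'.path ∩ DepD Sq (1 / ((m:ℝ) + 1))) (1/12) ∧
        Images (boundaries c) openSquare
          (Acc (1 / ((n:ℝ) + 1)) c'.path ∩ DepD Sq (1 / ((m:ℝ) + 1))) (2/3) := by
      rw [ae_all_iff]; intro n
      rw [ae_all_iff]; intro m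
      have := hcop _ (4/3) (by norm_num) (by norm_num) (q3 n m)
      rwa [e3, e4] at this
    have key : ∀ (P : Set ℂ) (b : ℝ) (T : ℕ → Set ℂ) (Q : Set ℂ), (Q ⊆ ⋃ n, T n) →
        (∀ n m : ℕ, Images P openSquare (T n ∩ DepD Sq (1 / ((m:ℝ) + 1))) b) →
        Images P openSquare (Q ∩ openSquare) b := by
      intro P b T Q hQ h
      have h3 : CopBd P openSquare (⋃ n : ℕ, ⋃ m : ℕ, T n ∩ DepD Sq (1 / ((m:ℝ) + 1))) b :=
        CopBd.iUnion' fun n => CopBd.iUnion' fun m => h n m
      refine h3.mono (Subset.refl _) ?_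
      rintro z ⟨hz, hzD⟩
      obtain ⟨n, hn⟩ := mem_iUnion.1 (hQ hz)
      obtain ⟨m, hm⟩ := mem_iUnion.1 (dep_cover Pool.Agent.W978.PDUL.Sq_open hzD)
      exact mem_iUnion.2 ⟨n, mem_iUnion.2 ⟨m, hn, hm⟩⟩
    filter_upwards [c1, c2] with c h1 h2
    exact ⟨⟨key _ _ _ _ (dbl_sub c') fun n m => (h1 n m).1,
        key _ _ _ _ (bd_sub hne') fun n m => (h2 n m).1⟩,
      key _ _ _ _ (dbl_sub c') fun n m => (h1 n m).2,
      key _ _ _ _ (bd_sub hne') fun n m => (h2 n m).2⟩

end Pool.Agent.Results.MP_6bd702_pr.PerimeterSmoothMaps
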