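import Pool.Agent.N956.PV.Top

/-!
# The exact variation of the outer perimeter of the largest critical percolation cluster

Critical bond percolation on `ℤ²` in the box `Λ_n = {0, …, n}²`: `F` is the set of open edges,
uniformly distributed on the subsets of `edges n`, and `Largest n F v` says that the cluster of `v`
has the largest Euclidean diameter (`Pool/Agent/H342R2/Per/Plain.lean`). The closed lattice path
around this cluster, which traces the boundary of the unbounded component of its complement, is
divided by `n` and run at constant speed on `[0, 1]`, and `T` is its number of steps divided by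
`n ^ (7/4)` (`IsNatural n F v (f, T)` below). We consider the law of the pair `(f, T)` in
`X = C([0, 1], ℂ) × ℝ`; `H342L.lawOf n f` is the law of `f F`.

The result: these laws are relatively compact, and there are universal constants such that, for
every subsequential limit, almost surely, `f 0 = f 1`, `T > 0`, and
(1) the `ψ`-variation of `f` on every time interval `[s, t]`, for
`ψ(x) = x ^ (7/4) / (log log (1/x)) ^ (3/4)`, is at least `c T (t - s)`, and at most `C T (t - s)` if
the arc `f [s, t]` is in the open square;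
(2) the law of the iterated logarithm at almost every time `t`: the upper limit, as `s → t`, of
`|f(s) - f(t)| / φ(T |s - t|)`, `φ(h) = h ^ (4/7) (log log (1/h)) ^ (3/7)`, is between `c'` and `C'`.

Other definitions: `Pool/Agent/H342R3/Lim/{Defs,Law}.lean` (`pt`, `lawOf`),
`Pool/Agent/H342R3/Tig/Defs.lean` (`poly`), `Pool/Agent/H984R3/Per/Defs.lean` (states of the
lattice path, `face`, `orb`), `Pool/Agent/H984R4/NP/Model.lean` (`X`).

The proof transfers the starting results `ExactVariation` and `LocalIteratedLogarithm` of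
`MP_fe58d8_pr` on the exploration paths of rectangles: almost surely every time at which the limit
curve is in the open square is in the interior of an arc which is a copy (translated, with the same
natural time) of an arc of a limit of exploration paths (`Pool.Agent.R967.Per`).
-/

set_option autoImplicit false

namespace Pool.Agent.Results.MP_6bd702_pr.PerimeterVariation

open H342P.Plain H342L H984P H984N MeasureTheory Filter Topology
open scoped ENNReal

/-- `p = (f, T)`: `f` is the closed lattice path which traces the boundary of the unbounded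
component of the complement of the cluster of `v`, divided by `n` and with constant speed on
`[0, 1]`, and `T` is its number of steps divided by `n ^ (7/4)`. The path starts at a vertex `σ.1` of
the cluster with the face `face σ` of the unbounded component on its left; at each step it follows
the next edge (in clockwise order) if this edge is open, and turns clockwise around the vertex
otherwise, until it comes back to the initial state for the first time. -/
def IsNatural (n : ℕ) (F : Finset Edge) (v : ℤ × ℤ) (p : X) : Prop :=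
  ∃ (σ : St) (N : ℕ), 0 < N ∧ σ.1 ∈ cluster F v ∧ Outer F v (face σ) ∧
    orb (↑F) σ N = σ ∧ (∀ j, 0 < j → j < N → orb (↑F) σ j ≠ σ) ∧
    p = (H342T.poly (fun j => pt n (orb (↑F) σ j).1) N, (N : ℝ) / (n : ℝ) ^ (7/4 : ℝ))

/-- The open unit square. -/
def openSquare : Set ℂ := {z | 0 < z.re ∧ z.re < 1 ∧ 0 < z.im ∧ z.im < 1}

/-- `max 1 (log log (1/x))` -/
noncomputable def ll (x : ℝ) : ℝ := max 1 (Real.log (Real.log (1 / x)))

/-- `ψ(x) = x ^ (7/4) / (log log (1/x)) ^ (3/4)` -/
noncomputable def psi (x : ℝ) : ℝ := x ^ (7/4 : ℝ) / ll x ^ (3/4 : ℝ)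

/-- `φ(h) = h ^ (4/7) (log log (1/h)) ^ (3/7)` -/
noncomputable def phi (h : ℝ) : ℝ := h ^ (4/7 : ℝ) * ll h ^ (3/7 : ℝ)

/-- The `ψ`-variation of the curve `f` on `[s, t]`: the limit (infimum), as `η → 0`, of the
supremum of the sums `∑ ψ(|f(τ_i) - f(τ_(i+1))|)` over the partitions
`s = τ_0 ≤ τ_1 ≤ … ≤ τ_n = t` of mesh at most `η`. -/
noncomputable def psiVariation (f : C(unitInterval, ℂ)) (s t : unitInterval) : ℝ≥0∞ :=
  ⨅ η : ℝ, ⨅ _ : 0 < η, ⨆ n : ℕ, ⨆ τ : ℕ → unitInterval,
    ⨆ _ : Monotone τ ∧ τ 0 = s ∧ τ n = t ∧ ∀ i < n, (τ (i + 1) : ℝ) - τ i ≤ η,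
    ENNReal.ofReal (∑ i ∈ Finset.range n, psi (dist (f (τ i)) (f (τ (i + 1)))))

theorem result : ∃ c C c' C' : ℝ, 0 < c ∧ 0 < C ∧ 0 < c' ∧ 0 < C' ∧
    ∀ (sel : (n : ℕ) → Finset Edge → ℤ × ℤ) (f : (n : ℕ) → Finset Edge → X),
      (∀ n F, 0 < n → F ⊆ edges n → Largest n F (sel n F)) →
      (∀ n F, 0 < n → F ⊆ edges n → IsNatural n F (sel n F) (f n F)) →
      (∀ k : ℕ → ℕ, Tendsto k atTop atTop → ∃ (φ : ℕ → ℕ) (μ : ProbabilityMeasure X),
        StrictMono φ ∧ Tendsto (fun i => lawOf (k (φ i)) (f (k (φ i)))) atTop (𝓝 μ)) ∧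
      ∀ (k : ℕ → ℕ), Tendsto k atTop atTop → ∀ μ : ProbabilityMeasure X,
        Tendsto (fun i => lawOf (k i) (f (k i))) atTop (𝓝 μ) →
        ∀ᵐ p ∂(μ : Measure X), p.1 0 = p.1 1 ∧ 0 < p.2 ∧
          (∀ s t : unitInterval, s ≤ t →
            ENNReal.ofReal (c * (p.2 * ((t : ℝ) - s))) ≤ psiVariation p.1 s t ∧
            ((∀ u ∈ Set.Icc s t, p.1 u ∈ openSquare) →
              psiVariation p.1 s t ≤ ENNReal.ofReal (C * (p.2 * ((t : ℝ) - s))))) ∧
          ∀ᵐ t : unitInterval,
            (∀ᶠ s : unitInterval in 𝓝 t,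
              dist (p.1 s) (p.1 t) ≤ C' * phi (p.2 * |(s : ℝ) - t|)) ∧
            ∃ᶠ s : unitInterval in 𝓝 t,
              c' * phi (p.2 * |(s : ℝ) - t|) < dist (p.1 s) (p.1 t) := by
  obtain ⟨c, C, c', C', hc, hC, hc', hC', h⟩ := Pool.Agent.N956.PV.var_top
  refine ⟨c, C, c', C', hc, hC, hc', hC', fun sel f h1 h2 => ?_⟩
  have hsel : Pool.Agent.Y995.LG.Sel sel f := ⟨h1, h2⟩
  refine ⟨fun k hk => Pool.Agent.Y995.LG.tight0 sel f hsel k hk, fun k hk μ hμ => ?_⟩
  filter_upwards [h sel f hsel k hk μ hμ] with p hp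
  obtain ⟨p1, p2, p3, p4⟩ := hp
  refine ⟨p1, p2, fun s t hst => ?_, p4⟩
  rw [← mul_assoc, ← mul_assoc]
  exact p3 s t hst

end Pool.Agent.Results.MP_6bd702_pr.PerimeterVariation
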